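import Pool.Agent.H74.OneP.UStmts

/-! Module D4: the exceptional cycle of length four. -/

namespace Pool.Agent.H74.OneP

open Equiv Equiv.Perm Drawing

namespace D4aux

theorem mem_of_closed {X : Type} [Finite X] {p : Perm X} {s : Set X} {x b : X}
    (hcl : ∀ y ∈ s, p y ∈ s) (hx : x ∈ s) (h : p.SameCycle x b) : b ∈ s := by
  obtain ⟨i, hi⟩ := h.exists_nat_pow_eq
  have key : ∀ n : ℕ, (p ^ n) x ∈ s := by
    intro n
    induction n with
    | zero => simpa using hx
    | succ n ih => rw [pow_succ', Equiv.Perm.mul_apply]; exact hcl _ ih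
  rw [← hi]; exact key i

open Classical in
theorem orb_count {X : Type} [Finite X] (p : Perm X) (k : ℕ) (S : Finset X) (f : X → ℕ)
    (hS : ∀ a ∈ S, ∀ b ∈ S, p.SameCycle a b → a = b)
    (hf : ∀ a ∈ S, ∃ s : Finset X, f a ≤ s.card ∧ ∀ y ∈ s, p.SameCycle a y)
    (hk : ∀ a, (∀ b ∈ S, ¬ p.SameCycle b a) → ∃ s : Finset X, k ≤ s.card ∧ ∀ y ∈ s, p.SameCycle a y) :
    ∑ a ∈ S, f a + k * orb p ≤ Nat.card X + k * S.card := by
  have : Fintype X := Fintype.ofFinite X
  let Qt := Quotient (SameCycle.setoid p)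
  have : Fintype Qt := Fintype.ofFinite Qt
  let mk : X → Qt := fun a => Quotient.mk _ a
  have hmk : ∀ a b, mk a = mk b ↔ p.SameCycle a b := fun a b => Quotient.eq (r := SameCycle.setoid p)
  let N : Qt → ℕ := fun q => (Finset.univ.filter (fun y => mk y = q)).card
  have hcard : Nat.card X = ∑ q, N q := by
    rw [Nat.card_eq_fintype_card, ← Finset.card_univ]
    exact Finset.card_eq_sum_card_fiberwise (fun _ _ => by simp)
  have horb : orb p = Fintype.card Qt := Nat.card_eq_fintype_card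
  have hinj : Set.InjOn mk (S : Set X) := by
    intro a ha b hb hab
    exact hS a ha b hb ((hmk a b).1 hab)
  have hge : ∀ (m : ℕ) (a : X), (∃ s : Finset X, m ≤ s.card ∧ ∀ y ∈ s, p.SameCycle a y) →
      m ≤ N (mk a) := by
    rintro m a ⟨s, h1, h2⟩
    refine h1.trans (Finset.card_le_card ?_)
    intro y hy
    rw [Finset.mem_filter]
    exact ⟨Finset.mem_univ _, (hmk _ _).2 (h2 y hy).symm⟩
  have h1 : ∑ a ∈ S, f a ≤ ∑ q ∈ S.image mk, N q := by
    rw [Finset.sum_image hinj]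
    exact Finset.sum_le_sum fun a ha => hge _ _ (hf a ha)
  have h2 : k * (Finset.univ \ S.image mk).card ≤ ∑ q ∈ Finset.univ \ S.image mk, N q := by
    rw [mul_comm, ← smul_eq_mul]
    refine Finset.card_nsmul_le_sum _ _ _ ?_
    intro q hq
    obtain ⟨a, rfl⟩ : ∃ a, mk a = q := Quotient.exists_rep q
    refine hge k a (hk a ?_)
    intro b hb hba
    rw [Finset.mem_sdiff] at hq
    exact hq.2 (Finset.mem_image.2 ⟨b, hb, (hmk _ _).2 hba⟩)
  have h3 : ∑ q ∈ S.image mk, N q + ∑ q ∈ Finset.univ \ S.image mk, N q = ∑ q, N q := by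
    rw [add_comm]
    exact Finset.sum_sdiff (Finset.subset_univ _)
  have h4 : (Finset.univ \ S.image mk).card + S.card = Fintype.card Qt := by
    rw [← Finset.card_univ, ← Finset.card_image_of_injOn hinj]
    exact Finset.card_sdiff_add_card_eq_card (Finset.subset_univ _)
  rw [horb, ← h4, hcard, ← h3, mul_add]
  omega

variable {X : Type} {ρ τ : Perm X}

/-- target class -/
def tt (τ : Perm X) (a : X) : Quotient (SameCycle.setoid τ) := Quotient.mk _ a

theorem tt_eq {a b : X} : tt τ a = tt τ b ↔ τ.SameCycle a b :=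
  Quotient.eq (r := SameCycle.setoid τ)

theorem tt_tau (a : X) : tt τ (τ a) = tt τ a :=
  tt_eq.2 ((Equiv.Perm.sameCycle_apply_left).2 (SameCycle.refl _ _))

theorem rinv (h : IsKernel ρ τ) (a : X) : ρ⁻¹ a = ρ (ρ (ρ a)) := by
  rw [Equiv.Perm.inv_eq_iff_eq, h.four]

theorem lr (h : IsKernel ρ τ) (a : X) : tt τ (ρ a) ≠ tt τ (ρ⁻¹ a) := by
  intro e
  rw [rinv h] at e
  exact h.k2 _ (tt_eq.1 e)

theorem U (h : IsKernel ρ τ) {a b : X} (h1 : tt τ a = tt τ b)
    (h2 : tt τ (ρ a) = tt τ (ρ⁻¹ b)) (h3 : tt τ (ρ⁻¹ a) = tt τ (ρ b)) : a = b := by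
  exfalso
  have e1 : ρ a = ρ⁻¹ b := by
    apply h.k3 _ _ (tt_eq.1 h2)
    rw [← tt_eq, ← rinv h, h3]
    congr 1
    simp
  have : b = ρ (ρ a) := by rw [e1]; simp
  rw [this] at h1
  exact h.k2 _ (tt_eq.1 h1)

theorem stepL {a : X} (h : ρ⁻¹ (τ (ρ⁻¹ (τ a))) = a) : tt τ (ρ a) = tt τ (ρ⁻¹ (τ a)) := by
  have : τ (ρ⁻¹ (τ a)) = ρ a := by
    rw [Equiv.Perm.inv_eq_iff_eq] at h; exact h
  rw [← this, tt_tau]

theorem loc1 (h : IsKernel ρ τ) {x : X}
    (hx : ∀ y, tt τ y = tt τ x → y ≠ x → tt τ (ρ y) = tt τ (ρ⁻¹ (τ y)))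
    (e : tt τ (ρ⁻¹ (τ x)) = tt τ (ρ x)) : τ x ≠ x ∧ τ (τ x) ≠ x := by
  have h1 : τ x ≠ x := by
    intro h1
    rw [h1] at e
    exact lr h x e.symm
  refine ⟨h1, fun h2 => h1 ?_⟩
  have h3 := hx (τ x) (tt_tau x) h1
  rw [h2] at h3
  exact U h (tt_tau x) h3 e

theorem three {x : X} [Finite X] (h : τ (τ (τ x)) = x) {b : X} (hb : τ.SameCycle x b) :
    b = x ∨ b = τ x ∨ b = τ (τ x) := by
  have := mem_of_closed (s := {y | y = x ∨ y = τ x ∨ y = τ (τ x)}) (p := τ) ?_ (Or.inl rfl) hb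
  · exact this
  · rintro y (rfl | rfl | rfl)
    · exact Or.inr (Or.inl rfl)
    · exact Or.inr (Or.inr rfl)
    · exact Or.inl h

theorem two {x : X} [Finite X] (h : τ (τ x) = x) {b : X} (hb : τ.SameCycle x b) :
    b = x ∨ b = τ x := by
  have := mem_of_closed (s := {y | y = x ∨ y = τ x}) (p := τ) ?_ (Or.inl rfl) hb
  · exact this
  · rintro y (rfl | rfl)
    · exact Or.inr rfl
    · exact Or.inl h

theorem one {x : X} [Finite X] (h : τ x = x) {b : X} (hb : τ.SameCycle x b) : b = x := by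
  have := mem_of_closed (s := {y | y = x}) (p := τ) ?_ rfl hb
  · exact this
  · rintro y rfl
    exact h

theorem locA [Finite X] (h : IsKernel ρ τ) {x b : X}
    (hx : ∀ y, tt τ y = tt τ x → y ≠ x → tt τ (ρ y) = tt τ (ρ⁻¹ (τ y)))
    (hb : τ.SameCycle x b) (hne : tt τ (ρ⁻¹ (τ x)) ≠ tt τ (ρ x))
    (hR : tt τ (ρ⁻¹ b) = tt τ (ρ x)) (hL : tt τ (ρ b) = tt τ (ρ⁻¹ (τ x))) :
    τ x ≠ x ∧ τ (τ x) ≠ x ∧ τ (τ (τ x)) ≠ x := by
  have hb0 : b ≠ x := by rintro rfl; exact hne hL.symm
  have hb1 : b ≠ τ x := by rintro rfl; exact hne hR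
  have h1 : τ x ≠ x := fun h1 => hb0 (one h1 hb)
  have h2 : τ (τ x) ≠ x := by
    intro h2
    rcases two h2 hb with h | h
    · exact hb0 h
    · exact hb1 h
  refine ⟨h1, h2, fun h3 => ?_⟩
  rcases three h3 hb with e | e | e
  · exact hb0 e
  · exact hb1 e
  · subst e
    have s0 := hx (τ x) (tt_tau x) h1
    have : τ x = τ (τ x) := by
      refine U h ?_ ?_ ?_
      · rw [tt_tau (τ x)]
      · exact s0
      · exact hL.symm
    exact h1 (τ.injective this).symm

theorem locB [Finite X] (h : IsKernel ρ τ) {x b : X}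
    (hx : ∀ y, tt τ y = tt τ x → y ≠ x → tt τ (ρ y) = tt τ (ρ⁻¹ (τ y)))
    (hb : τ.SameCycle x b)
    (hR : tt τ (ρ⁻¹ b) = tt τ (ρ⁻¹ (τ x))) (hL : tt τ (ρ b) = tt τ (ρ x)) :
    τ x = x ∨ (τ x ≠ x ∧ τ (τ x) ≠ x ∧ τ (τ (τ x)) ≠ x) := by
  by_cases h1 : τ x = x
  · exact Or.inl h1
  refine Or.inr ⟨h1, ?_⟩
  have s0 := hx (τ x) (tt_tau x) h1
  have h2 : τ (τ x) ≠ x := by
    intro h2
    rw [h2] at s0
    rcases two h2 hb with e | e
    · subst e
      exact lr h (τ b) (s0.trans hR)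
    · subst e
      exact lr h x (hL.symm.trans s0)
  refine ⟨h2, fun h3 => ?_⟩
  have s1 := hx (τ (τ x)) (by rw [tt_tau, tt_tau]) h2
  rw [h3] at s1
  rcases three h3 hb with e | e | e
  · subst e
    have : τ b = τ (τ b) := by
      refine U h ?_ s0 ?_
      · rw [tt_tau (τ b)]
      · rw [s1]; exact hR.symm
    exact h1 (τ.injective this).symm
  · subst e
    refine h2 (U h ?_ s1 ?_)
    · rw [tt_tau, tt_tau]
    · exact s0.symm.trans hL
  · subst e
    exact lr h (τ x) (s0.trans hR)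

theorem closed_all [Finite X] (hc : comps ρ τ = 1) {s : Set X} {x : X} (hx : x ∈ s)
    (h1 : ∀ y ∈ s, ρ y ∈ s) (h2 : ∀ y ∈ s, τ y ∈ s) (y : X) : y ∈ s := by
  let r : Setoid X := ⟨fun a b => (a ∈ s ↔ b ∈ s), ⟨fun _ => Iff.rfl, fun h => h.symm,
    fun h h' => h.trans h'⟩⟩
  have hr : ∀ p : Perm X, (∀ y ∈ s, p y ∈ s) → SameCycle.setoid p ≤ r := by
    intro p hp a b hab
    change (a ∈ s ↔ b ∈ s)
    have hab' : p.SameCycle a b := hab
    exact ⟨fun ha => mem_of_closed hp ha hab', fun hb => mem_of_closed hp hb hab'.symm⟩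
  have hs : SameCycle.setoid ρ ⊔ SameCycle.setoid τ ≤ r := sup_le (hr ρ h1) (hr τ h2)
  unfold comps at hc
  rw [Nat.card_eq_one_iff_unique] at hc
  have := hc.1
  have hxy : (SameCycle.setoid ρ ⊔ SameCycle.setoid τ) x y :=
    Quotient.exact (Subsingleton.elim _ _)
  have := hs hxy
  exact this.1 hx

theorem fix4 [Finite X] (h : IsKernel ρ τ) (hc : comps ρ τ = 1)
    (ho : 4 * orb ρ = Nat.card X) {x₀ x₁ x₂ x₃ : X}
    (e1 : x₁ = ρ⁻¹ (τ x₀)) (e2 : x₂ = ρ⁻¹ (τ x₁)) (e3 : x₃ = ρ⁻¹ (τ x₂)) (e0 : x₀ = ρ⁻¹ (τ x₃))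
    (f0 : τ x₀ = x₀) (f2 : τ x₂ = x₂) (hr : x₂ = ρ (ρ x₀)) : Nat.card X = 4 := by
  have a1 : x₁ = ρ (ρ (ρ x₀)) := by rw [e1, f0, rinv h]
  have f1 : τ x₁ = x₁ := by
    have : τ x₁ = ρ x₂ := by rw [e2]; simp
    rw [this, hr, a1]
  have a3 : x₃ = ρ x₀ := by rw [e3, f2, hr]; simp
  have f3 : τ x₃ = x₃ := by
    have : τ x₃ = ρ x₀ := by
      have := congrArg ρ e0
      simp at this
      exact this.symm
    rw [this, a3]
  have hall : ∀ y : X, y ∈ ({y | y = x₀ ∨ y = ρ x₀ ∨ y = ρ (ρ x₀) ∨ y = ρ (ρ (ρ x₀))} : Set X) := by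
    refine closed_all hc (x := x₀) (Or.inl rfl) ?_ ?_
    · rintro y (rfl | rfl | rfl | rfl)
      · exact Or.inr (Or.inl rfl)
      · exact Or.inr (Or.inr (Or.inl rfl))
      · exact Or.inr (Or.inr (Or.inr rfl))
      · exact Or.inl (h.four _)
    · rintro y (rfl | rfl | rfl | rfl)
      · rw [f0]; exact Or.inl rfl
      · rw [← a3, f3, a3]; exact Or.inr (Or.inl rfl)
      · rw [← hr, f2, hr]; exact Or.inr (Or.inr (Or.inl rfl))
      · rw [← a1, f1, a1]; exact Or.inr (Or.inr (Or.inr rfl))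
  have hle : Nat.card X ≤ 4 := by
    classical
    have : Fintype X := Fintype.ofFinite X
    rw [Nat.card_eq_fintype_card, ← Finset.card_univ]
    refine (Finset.card_le_card (t := ({x₀, ρ x₀, ρ (ρ x₀), ρ (ρ (ρ x₀))} : Finset X)) ?_).trans
      Finset.card_le_four
    intro y _
    have := hall y
    simp only [Finset.mem_insert, Finset.mem_singleton]
    exact this
  have hpos : 0 < Nat.card X := Nat.card_pos_iff.2 ⟨⟨x₀⟩, inferInstance⟩
  omega

theorem card3 {x : X} [DecidableEq X] (h1 : τ x ≠ x) (h2 : τ (τ x) ≠ x) :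
    3 ≤ ({x, τ x, τ (τ x)} : Finset X).card := by
  rw [Finset.card_insert_of_notMem, Finset.card_insert_of_notMem, Finset.card_singleton]
  · simp only [Finset.mem_singleton]
    intro h
    exact h1 (τ.injective h).symm
  · simp only [Finset.mem_insert, Finset.mem_singleton]
    rintro (h | h)
    · exact h1 h.symm
    · exact h2 h.symm

theorem card4 {x : X} [DecidableEq X] (h1 : τ x ≠ x) (h2 : τ (τ x) ≠ x)
    (h3 : τ (τ (τ x)) ≠ x) :
    4 ≤ ({x, τ x, τ (τ x), τ (τ (τ x))} : Finset X).card := by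
  rw [Finset.card_insert_of_notMem]
  · have := card3 (τ := τ) (x := τ x) (fun h => h1 (τ.injective h)) (fun h => h2 (τ.injective h))
    omega
  · simp only [Finset.mem_insert, Finset.mem_singleton]
    rintro (h | h | h)
    · exact h1 h.symm
    · exact h2 h.symm
    · exact h3 h.symm

theorem sc (p : Perm X) (x : X) : p.SameCycle x (p x) :=
  (Equiv.Perm.sameCycle_apply_right).2 (SameCycle.refl _ _)

theorem sc2 (p : Perm X) (x : X) : p.SameCycle x (p (p x)) :=
  (sc p x).trans (sc p _)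

theorem sc3 (p : Perm X) (x : X) : p.SameCycle x (p (p (p x))) :=
  (sc2 p x).trans (sc p _)

open Classical in
theorem ex3 {x : X} (h1 : τ x ≠ x) (h2 : τ (τ x) ≠ x) :
    ∃ s : Finset X, 3 ≤ s.card ∧ ∀ y ∈ s, τ.SameCycle x y := by
  refine ⟨_, card3 h1 h2, ?_⟩
  intro y hy
  simp only [Finset.mem_insert, Finset.mem_singleton] at hy
  rcases hy with rfl | rfl | rfl
  · exact SameCycle.refl _ _
  · exact sc _ _
  · exact sc2 _ _

open Classical in
theorem ex4 {x : X} (h1 : τ x ≠ x) (h2 : τ (τ x) ≠ x) (h3 : τ (τ (τ x)) ≠ x) :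
    ∃ s : Finset X, 4 ≤ s.card ∧ ∀ y ∈ s, τ.SameCycle x y := by
  refine ⟨_, card4 h1 h2 h3, ?_⟩
  intro y hy
  simp only [Finset.mem_insert, Finset.mem_singleton] at hy
  rcases hy with rfl | rfl | rfl | rfl
  · exact SameCycle.refl _ _
  · exact sc _ _
  · exact sc2 _ _
  · exact sc3 _ _

open Classical in
theorem ex2 {x : X} (h1 : τ x ≠ x) :
    ∃ s : Finset X, 2 ≤ s.card ∧ ∀ y ∈ s, τ.SameCycle x y := by
  refine ⟨{x, τ x}, (Finset.card_pair h1.symm).ge, ?_⟩
  intro y hy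
  simp only [Finset.mem_insert, Finset.mem_singleton] at hy
  rcases hy with rfl | rfl
  · exact SameCycle.refl _ _
  · exact sc _ _

theorem ex1 (x : X) : ∃ s : Finset X, 1 ≤ s.card ∧ ∀ y ∈ s, τ.SameCycle x y := by
  refine ⟨{x}, by simp, ?_⟩
  intro y hy
  simp only [Finset.mem_singleton] at hy
  rw [hy]

end D4aux

open D4aux

theorem d4 (h1 : D1Stmt) : D4Stmt := by
  classical
  intro X _ ρ τ hK hE hc x hx4 hx2 hoth hG
  obtain ⟨hd1, hd2, hd3⟩ := h1 X ρ τ hK
  obtain ⟨x₀, x₁, x₂, x₃, h0, e1, e2, e3, hG⟩ := hG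
  -- transfer to x₀
  have hψ : ∀ a, (ρ⁻¹ * τ) a = ρ⁻¹ (τ a) := fun a => rfl
  have e0 : x₀ = ρ⁻¹ (τ x₃) := by
    have := mem_of_closed (p := ρ⁻¹ * τ) (s := {a | ρ⁻¹ (τ (ρ⁻¹ (τ (ρ⁻¹ (τ (ρ⁻¹ (τ a))))))) = a})
      (x := x) (b := x₀) ?_ hx4 h0
    · rw [e3, e2, e1]; exact this.symm
    · intro a ha
      simp only [Set.mem_ofPred_eq] at ha ⊢
      rw [hψ, ha]
  have h02 : x₂ ≠ x₀ := by
    have := mem_of_closed (p := ρ⁻¹ * τ) (s := {a | ρ⁻¹ (τ (ρ⁻¹ (τ a))) ≠ a})
      (x := x) (b := x₀) ?_ hx2 h0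
    · rw [e2, e1]; exact this
    · intro a ha
      simp only [Set.mem_ofPred_eq] at ha ⊢
      intro h
      rw [hψ] at h
      exact ha (τ.injective ((ρ⁻¹).injective h))
  have hoth' : ∀ y, y ≠ x₀ → y ≠ x₁ → y ≠ x₂ → y ≠ x₃ → ρ⁻¹ (τ (ρ⁻¹ (τ y))) = y := by
    intro y n0 n1 n2 n3
    apply hoth
    intro hy
    have hy' := h0.symm.trans hy
    have := mem_of_closed (p := ρ⁻¹ * τ) (s := {a | a = x₀ ∨ a = x₁ ∨ a = x₂ ∨ a = x₃})
      (x := x₀) (b := y) ?_ (Or.inl rfl) hy'
    · rcases this with h | h | h | h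
      · exact n0 h
      · exact n1 h
      · exact n2 h
      · exact n3 h
    · rintro a (h | h | h | h)
      · right; left; rw [h, hψ, e1]
      · right; right; left; rw [h, hψ, e2]
      · right; right; right; rw [h, hψ, e3]
      · left; rw [h, hψ, ← e0]
  -- targets
  have L1 : tt τ (ρ x₁) = tt τ x₀ := by rw [e1, ← tt_tau x₀]; simp
  have L2 : tt τ (ρ x₂) = tt τ x₁ := by rw [e2, ← tt_tau x₁]; simp
  have L3 : tt τ (ρ x₃) = tt τ x₂ := by rw [e3, ← tt_tau x₂]; simp
  have L0 : tt τ (ρ x₀) = tt τ x₃ := by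
    have : ρ x₀ = τ x₃ := by
      have := congrArg ρ e0
      simp at this
      exact this
    rw [this, tt_tau]
  have n01 : tt τ x₀ ≠ tt τ x₁ := fun h => hK.k1 x₁ (tt_eq.1 (h.symm.trans L1.symm))
  have n12 : tt τ x₁ ≠ tt τ x₂ := fun h => hK.k1 x₂ (tt_eq.1 (h.symm.trans L2.symm))
  have n23 : tt τ x₂ ≠ tt τ x₃ := fun h => hK.k1 x₃ (tt_eq.1 (h.symm.trans L3.symm))
  have n30 : tt τ x₃ ≠ tt τ x₀ := fun h => hK.k1 x₀ (tt_eq.1 (h.symm.trans L0.symm))
  -- psi-cycles
  have hpsi : 4 + 2 * orb (ρ⁻¹ * τ) ≤ Nat.card X + 2 := by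
    have := orb_count (ρ⁻¹ * τ) 2 {x₀} (fun _ => 4) (by simp) ?_ ?_
    · simpa using this
    · intro a ha
      rw [Finset.mem_singleton] at ha
      subst ha
      apply ex4
      · exact hd1 _
      · rw [hψ, hψ, ← e1, ← e2]; exact h02
      · rw [hψ, hψ, hψ, ← e1, ← e2, ← e3]
        intro h
        rw [h] at e0
        exact hd1 _ e0.symm
    · intro a _
      exact ex2 (hd1 a)
  have hKE : orb ρ + orb τ + orb (ρ⁻¹ * τ) = Nat.card X + 2 := by
    have := hE
    unfold KEul at this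
    rw [hc] at this
    simpa using this
  -- a class without exceptional elements has at least three elements
  have hgen : ∀ a, ¬ τ.SameCycle x₀ a → ¬ τ.SameCycle x₁ a → ¬ τ.SameCycle x₂ a →
      ¬ τ.SameCycle x₃ a → ∃ s : Finset X, 3 ≤ s.card ∧ ∀ y ∈ s, τ.SameCycle a y := by
    intro a m0 m1 m2 m3
    have := hd3 a ?_
    · exact ex3 this.1 this.2
    · intro y hy
      apply hoth'
      · rintro rfl; exact m0 hy.symm
      · rintro rfl; exact m1 hy.symm
      · rintro rfl; exact m2 hy.symm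
      · rintro rfl; exact m3 hy.symm
  rcases hG with ⟨hn02, hn13, y, hy0, hy2, hAB⟩ | ⟨h13, hn02⟩
  · -- first alternative
    have n02 : tt τ x₀ ≠ tt τ x₂ := fun h => hn02 (tt_eq.1 h)
    have n13 : tt τ x₁ ≠ tt τ x₃ := fun h => hn13 (tt_eq.1 h)
    have hx0 : ∀ y, tt τ y = tt τ x₀ → y ≠ x₀ → tt τ (ρ y) = tt τ (ρ⁻¹ (τ y)) := by
      intro y hy hne
      apply stepL
      apply hoth' _ hne
      · rintro rfl; exact n01 hy.symm
      · rintro rfl; exact n02 hy.symm
      · rintro rfl; exact n30 hy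
    have hx1 : ∀ y, tt τ y = tt τ x₁ → y ≠ x₁ → tt τ (ρ y) = tt τ (ρ⁻¹ (τ y)) := by
      intro y hy hne
      apply stepL
      apply hoth' _ _ hne
      · rintro rfl; exact n12 hy.symm
      · rintro rfl; exact n13 hy.symm
      · rintro rfl; exact n01 hy
    have hx2 : ∀ y, tt τ y = tt τ x₂ → y ≠ x₂ → tt τ (ρ y) = tt τ (ρ⁻¹ (τ y)) := by
      intro y hy hne
      apply stepL
      apply hoth' _ _ _ hne
      · rintro rfl; exact n23 hy.symm
      · rintro rfl; exact n02 hy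
      · rintro rfl; exact n12 hy
    have hx3 : ∀ y, tt τ y = tt τ x₃ → y ≠ x₃ → tt τ (ρ y) = tt τ (ρ⁻¹ (τ y)) := by
      intro y hy hne
      apply stepL
      apply hoth' _ _ _ _ hne
      · rintro rfl; exact n30 hy.symm
      · rintro rfl; exact n13 hy
      · rintro rfl; exact n23 hy
    have key : (τ x₀ = x₀ ∧ τ x₂ = x₂ ∧ x₂ = ρ (ρ x₀)) ∨ (τ x₁ = x₁ ∧ τ x₃ = x₃ ∧ x₃ = ρ (ρ x₁)) ∨
        ∃ f : X → ℕ, 10 ≤ f x₀ + f x₁ + f x₂ + f x₃ ∧
          ∀ a, a = x₀ ∨ a = x₁ ∨ a = x₂ ∨ a = x₃ →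
            ∃ s : Finset X, f a ≤ s.card ∧ ∀ y ∈ s, τ.SameCycle a y := by
      have R0 : tt τ (ρ⁻¹ (τ x₀)) = tt τ x₁ := by rw [e1]
      have R1 : tt τ (ρ⁻¹ (τ x₁)) = tt τ x₂ := by rw [e2]
      have R2 : tt τ (ρ⁻¹ (τ x₂)) = tt τ x₃ := by rw [e3]
      have R3 : tt τ (ρ⁻¹ (τ x₃)) = tt τ x₀ := by rw [← e0]
      have ty0 : tt τ y = tt τ x₀ := (tt_eq.2 hy0).symm
      have ty2 : tt τ (ρ (ρ y)) = tt τ x₂ := (tt_eq.2 hy2).symm
      rcases hAB with ⟨hy1, hy3⟩ | ⟨hy3, hy1⟩
      · have ty1 : tt τ (ρ y) = tt τ x₁ := (tt_eq.2 hy1).symm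
        have ty3 : tt τ (ρ (ρ (ρ y))) = tt τ x₃ := (tt_eq.2 hy3).symm
        have a0 := locA hK hx0 hy0 (by rw [R0, L0]; exact n13)
          (by rw [rinv hK, L0, ty3]) (by rw [ty1, R0])
        have a1 := locA hK hx1 hy1 (by rw [R1, L1]; exact n02.symm)
          (by rw [L1]; simpa using ty0) (by rw [ty2, R1])
        have a2 := locA hK hx2 hy2 (by rw [R2, L2]; exact n13.symm)
          (by rw [L2]; simpa using ty1) (by rw [ty3, R2])
        have a3 := locA hK hx3 hy3 (by rw [R3, L3]; exact n02)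
          (by rw [L3]; simpa using ty2) (by rw [hK.four, ty0, R3])
        refine Or.inr (Or.inr ⟨fun _ => 4, by norm_num, ?_⟩)
        rintro a (rfl | rfl | rfl | rfl)
        · exact ex4 a0.1 a0.2.1 a0.2.2
        · exact ex4 a1.1 a1.2.1 a1.2.2
        · exact ex4 a2.1 a2.2.1 a2.2.2
        · exact ex4 a3.1 a3.2.1 a3.2.2
      · have ty1 : tt τ (ρ (ρ (ρ y))) = tt τ x₁ := (tt_eq.2 hy1).symm
        have ty3 : tt τ (ρ y) = tt τ x₃ := (tt_eq.2 hy3).symm
        have a0 := locB hK hx0 hy0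
          (by rw [rinv hK, R0, ty1]) (by rw [ty3, L0])
        have a1 := locB hK hx1 hy1
          (by rw [R1]; simpa using ty2) (by rw [hK.four, ty0, L1])
        have a2 := locB hK hx2 hy2
          (by rw [R2]; simpa using ty3) (by rw [ty1, L2])
        have a3 := locB hK hx3 hy3
          (by rw [R3]; simpa using ty0) (by rw [ty2, L3])
        by_cases c02 : τ x₀ = x₀ ∧ τ x₂ = x₂
        · left
          refine ⟨c02.1, c02.2, ?_⟩
          have q0 := one c02.1 hy0
          have q2 := one c02.2 hy2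
          rw [← q2, q0]
        by_cases c13 : τ x₁ = x₁ ∧ τ x₃ = x₃
        · right; left
          refine ⟨c13.1, c13.2, ?_⟩
          have q1 := one c13.1 hy1
          have q3 := one c13.2 hy3
          rw [← q1, hK.four, ← q3]
        · right; right
          refine ⟨fun a => if τ a = a then 1 else 4, ?_, ?_⟩
          · have s1 : 5 ≤ (if τ x₀ = x₀ then 1 else 4) + (if τ x₂ = x₂ then 1 else 4) := by
              split_ifs with q1 q2 q2
              · exact absurd ⟨q1, q2⟩ c02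
              · norm_num
              · norm_num
              · norm_num
            have s2 : 5 ≤ (if τ x₁ = x₁ then 1 else 4) + (if τ x₃ = x₃ then 1 else 4) := by
              split_ifs with q1 q2 q2
              · exact absurd ⟨q1, q2⟩ c13
              · norm_num
              · norm_num
              · norm_num
            dsimp only
            omega
          · rintro a ha
            have haa : τ a = a ∨ (τ a ≠ a ∧ τ (τ a) ≠ a ∧ τ (τ (τ a)) ≠ a) := by
              rcases ha with rfl | rfl | rfl | rfl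
              · exact a0
              · exact a1
              · exact a2
              · exact a3
            rcases haa with h | ⟨h, h', h''⟩
            · simp only [h, if_true]
              exact ex1 a
            · simp only [h, if_false]
              exact ex4 h h' h''
    rcases key with ⟨f0, f2, hr⟩ | ⟨f1, f3, hr⟩ | ⟨f, hf, hf'⟩
    · exact Or.inl (fix4 hK hc hd2 e1 e2 e3 e0 f0 f2 hr)
    · exact Or.inl (fix4 hK hc hd2 e2 e3 e0 e1 f1 f3 hr)
    · right
      have m01 : x₀ ≠ x₁ := fun h => n01 (by rw [h])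
      have m02 : x₀ ≠ x₂ := fun h => n02 (by rw [h])
      have m03 : x₀ ≠ x₃ := fun h => n30 (by rw [h])
      have m12 : x₁ ≠ x₂ := fun h => n12 (by rw [h])
      have m13 : x₁ ≠ x₃ := fun h => n13 (by rw [h])
      have m23 : x₂ ≠ x₃ := fun h => n23 (by rw [h])
      have i0 : x₀ ∉ ({x₁, x₂, x₃} : Finset X) := by simp [m01, m02, m03]
      have i1 : x₁ ∉ ({x₂, x₃} : Finset X) := by simp [m12, m13]
      have i2 : x₂ ∉ ({x₃} : Finset X) := by simp [m23]
      have := orb_count τ 3 {x₀, x₁, x₂, x₃} f ?_ ?_ ?_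
      · rw [Finset.sum_insert i0, Finset.sum_insert i1, Finset.sum_insert i2,
          Finset.sum_singleton, Finset.card_insert_of_notMem i0, Finset.card_insert_of_notMem i1,
          Finset.card_insert_of_notMem i2, Finset.card_singleton] at this
        omega
      · intro a ha b hb hab
        have hab' := tt_eq.2 hab
        simp only [Finset.mem_insert, Finset.mem_singleton] at ha hb
        rcases ha with rfl | rfl | rfl | rfl <;> rcases hb with rfl | rfl | rfl | rfl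
        · rfl
        · exact absurd hab' n01
        · exact absurd hab' n02
        · exact absurd hab'.symm n30
        · exact absurd hab'.symm n01
        · rfl
        · exact absurd hab' n12
        · exact absurd hab' n13
        · exact absurd hab'.symm n02
        · exact absurd hab'.symm n12
        · rfl
        · exact absurd hab' n23
        · exact absurd hab' n30
        · exact absurd hab'.symm n13
        · exact absurd hab'.symm n23
        · rfl
      · intro a ha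
        simp only [Finset.mem_insert, Finset.mem_singleton] at ha
        exact hf' a ha
      · intro a ha
        exact hgen a (ha _ (by simp)) (ha _ (by simp)) (ha _ (by simp)) (ha _ (by simp))
  · right
    have n02 : tt τ x₀ ≠ tt τ x₂ := fun h => hn02 (tt_eq.1 h)
    have t13 : tt τ x₁ = tt τ x₃ := tt_eq.2 h13
    have hx0 : ∀ y, tt τ y = tt τ x₀ → y ≠ x₀ → tt τ (ρ y) = tt τ (ρ⁻¹ (τ y)) := by
      intro y hy hne
      apply stepL
      apply hoth' _ hne
      · rintro rfl; exact n01 hy.symm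
      · rintro rfl; exact n02 hy.symm
      · rintro rfl; exact n30 hy
    have hx2 : ∀ y, tt τ y = tt τ x₂ → y ≠ x₂ → tt τ (ρ y) = tt τ (ρ⁻¹ (τ y)) := by
      intro y hy hne
      apply stepL
      apply hoth' _ _ _ hne
      · rintro rfl; exact n23 hy.symm
      · rintro rfl; exact n02 hy
      · rintro rfl; exact n12 hy
    have a0 := loc1 hK hx0 (by rw [← e1, L0, t13])
    have a2 := loc1 hK hx2 (by rw [← e3, L2, t13])
    have m01 : x₀ ≠ x₁ := fun h => n01 (by rw [h])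
    have m02 : x₀ ≠ x₂ := fun h => n02 (by rw [h])
    have m12 : x₁ ≠ x₂ := fun h => n12 (by rw [h])
    have i0 : x₀ ∉ ({x₁, x₂} : Finset X) := by simp [m01, m02]
    have i1 : x₁ ∉ ({x₂} : Finset X) := by simp [m12]
    have := orb_count τ 3 {x₀, x₁, x₂} (fun a => if a = x₁ then 1 else 3) ?_ ?_ ?_
    · rw [Finset.sum_insert i0, Finset.sum_insert i1,
          Finset.sum_singleton, Finset.card_insert_of_notMem i0, Finset.card_insert_of_notMem i1,
          Finset.card_singleton] at this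
      simp only [m01, m12.symm, if_true, if_false] at this
      omega
    · intro a ha b hb hab
      have hab' := tt_eq.2 hab
      simp only [Finset.mem_insert, Finset.mem_singleton] at ha hb
      rcases ha with rfl | rfl | rfl <;> rcases hb with rfl | rfl | rfl
      · rfl
      · exact absurd hab' n01
      · exact absurd hab' n02
      · exact absurd hab'.symm n01
      · rfl
      · exact absurd hab' n12
      · exact absurd hab'.symm n02
      · exact absurd hab'.symm n12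
      · rfl
    · intro a ha
      simp only [Finset.mem_insert, Finset.mem_singleton] at ha
      rcases ha with rfl | rfl | rfl
      · simp only [m01, if_false]
        exact ex3 a0.1 a0.2
      · simp only [if_true]
        exact ex1 a
      · simp only [m12.symm, if_false]
        exact ex3 a2.1 a2.2
    · intro a ha
      refine hgen a (ha _ (by simp)) (ha _ (by simp)) (ha _ (by simp)) ?_
      intro h
      exact ha x₁ (by simp) (h13.trans h)

end Pool.Agent.H74.OneP
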