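import Pool.Agent.H93.OneP.Tab

/-! Module U14 -/

namespace Pool.Agent.H74.OneP

open Equiv Equiv.Perm Drawing TabD

namespace TabD

def T2 : Tb where
  v := 5
  x := 2
  f := 8
  n := 26
  O := 144802796598903918508413338196372958914932460058853376
  Fa := 335619259550436869533427988334555136582269108784021506
  R := 871452736243274675719207427796157037734495553360839041
  I := 1158029959429877089541404445052052979009453411329605638
  S := 1061503829408999093887771783581576596674331360559628802
  P := 1061500699276294135082483134675478876241502016267878400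

theorem t2_ok : T2.Ok where
  h1 := by decide +kernel
  h2 := by decide +kernel
  h3 := by decide +kernel
  h4 := by decide +kernel
  h5 := by decide +kernel
  h6 := by decide +kernel
  h7 := by decide +kernel

end TabD

theorem u14 (h1 : ExactStmt) (h2 : TwoConnStmt) : Base2Stmt := by
  have hA : ∀ a ∈ ({0} : Finset (Fin 26)), T2.le a.1 = true ∧
      ∀ b ∈ ({0} : Finset (Fin 26)), T2.s a.1 ≠ b.1 := by decide +kernel
  have hB : ∀ f ∈ ({0, 1} : Finset (Fin 8)),
      ∃ p : ℕ × ℕ × ℕ × ℕ, Tb.slot T2 p = true ∧ f.1 = p.1 := by
    intro f hf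
    simp only [Finset.mem_insert, Finset.mem_singleton] at hf
    rcases hf with rfl | rfl
    · exact ⟨(0, 1, 7, 18), by decide +kernel, rfl⟩
    · exact ⟨(1, 5, 15, 24), by decide +kernel, rfl⟩
  exact Tb.hasBase h1 t2_ok h2 (by decide +kernel) rfl rfl _ _
    (by decide +kernel) (by decide +kernel) hA hB

end Pool.Agent.H74.OneP
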