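import Pool.Agent.H93.OneP.Tab

/-! Module U15 -/

namespace Pool.Agent.H74.OneP

open Equiv Equiv.Perm Drawing TabD

namespace TabD

def T7 : Tb where
  v := 10
  x := 7
  f := 28
  n := 86
  O := 1432514624693715464928482212210654084665003175429787110216498209860473865974653844032199485299595069399662747880494302617864001639192677399302541259950673900605117602520958467358720
  Fa := 921929392042537137640289043608304205714670031771331162037426550095028757415320989333398838991850586417365569015155740090780429525455570241442932663874927144259045010557339968012801
  R := 8510363443979062600053766663556576883521555114001460387119755681250626513416773138509360890665122896445379707461236689050050654700193400993744010723084946710518025358684349026877825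
  I := 10715813946729884251490771025730752533263227605714478434400530125174441094581346171417435944317619399211526044920986220499436188587770734156318723174620099980386713823497725627580445
  S := 10583134547445894509513291969635548698879409915039680822590366172305005620739909553781924286037053253658206536821762469312394468942176640354843016113274891641207196305809534686855682
  P := 10583102389179960686825984938820874734338321314102148247649481705697037635721296243393751519771473952409211105228817441181445174599181067231030147547480543702748161678846552331780096

theorem t7_ok : T7.Ok where
  h1 := by decide +kernel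
  h2 := by decide +kernel
  h3 := by decide +kernel
  h4 := by decide +kernel
  h5 := by decide +kernel
  h6 := by decide +kernel
  h7 := by decide +kernel

end TabD

theorem u15 (h1 : ExactStmt) (h2 : TwoConnStmt) : Base7Stmt := by
  have hA : ∀ a ∈ ({0, 25, 36, 7, 66, 78, 74, 39, 47, 42, 61, 9} : Finset (Fin 86)), T7.le a.1 = true ∧
      ∀ b ∈ ({0, 25, 36, 7, 66, 78, 74, 39, 47, 42, 61, 9} : Finset (Fin 86)), T7.s a.1 ≠ b.1 := by decide +kernel
  have hB : ∀ f ∈ ({0} : Finset (Fin 28)),
      ∃ p : ℕ × ℕ × ℕ × ℕ, Tb.slot T7 p = true ∧ f.1 = p.1 := by
    intro f hf
    simp only [Finset.mem_insert, Finset.mem_singleton] at hf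
    rcases hf with rfl
    · exact ⟨(0, 11, 44, 56), by decide +kernel, rfl⟩
  exact Tb.hasBase h1 t7_ok h2 (by decide +kernel) rfl rfl _ _
    (by decide +kernel) (by decide +kernel) hA hB

end Pool.Agent.H74.OneP
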