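import Pool.Agent.H93.OneP.Tab

/-! Module U16: the triangle. -/

namespace Pool.Agent.H74.OneP

open Equiv Equiv.Perm Drawing TabD

namespace TabD

def T3 : Tb where
  v := 3
  x := 0
  f := 2
  n := 6
  O := 68992122880
  Fa := 34359754880
  R := 103626637313
  I := 103626637313
  S := 138783228290
  P := 103618183168

theorem t3_ok : T3.Ok where
  h1 := by decide +kernel
  h2 := by decide +kernel
  h3 := by decide +kernel
  h4 := by decide +kernel
  h5 := by decide +kernel
  h6 := by decide +kernel
  h7 := by decide +kernel

end TabD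

theorem u16 (h1 : ExactStmt) (h2 : TwoConnStmt) : TriangleStmt := by
  have G := Tb.good h1 t3_ok h2 (by decide +kernel)
  have hV : Nat.card (Tb.dr h1 t3_ok).V = 3 := by
    change Nat.card (Fin 3) = 3
    simp
  refine ⟨Tb.dr h1 t3_ok, G.simple, G.maximal, G.conn2, ?_, hV, ?_⟩
  · intro h
    have := h.1
    rw [hV] at this
    omega
  · change Nat.card (Fin 0) = 0
    simp

end Pool.Agent.H74.OneP
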