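import Pool.Agent.H74.OneP.UStmts

/-! Drawings given by tables (numbers written in base 128), checked by evaluation. -/

namespace Pool.Agent.H74.OneP

open Equiv Equiv.Perm Drawing

namespace TabD

/-- bounded universal quantifier -/
def allB (n : ℕ) (p : ℕ → Bool) : Bool := Nat.rec true (fun k ih => p k && ih) n

theorem allB_iff (n : ℕ) (p : ℕ → Bool) : allB n p = true ↔ ∀ i < n, p i = true := by
  induction n with
  | zero => simp [allB]
  | succ n ih =>
    have : allB (n + 1) p = (p n && allB n p) := rfl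
    rw [this, Bool.and_eq_true, ih]
    constructor
    · rintro ⟨h1, h2⟩ i hi
      rcases Nat.lt_succ_iff_lt_or_eq.1 hi with h | rfl
      · exact h2 i h
      · exact h1
    · intro h
      exact ⟨h n (Nat.lt_succ_self n), fun i hi => h i (Nat.lt_succ_of_lt hi)⟩

/-- bounded existential quantifier -/
def exB (n : ℕ) (p : ℕ → Bool) : Bool := Nat.rec false (fun k ih => p k || ih) n

theorem exB_iff (n : ℕ) (p : ℕ → Bool) : exB n p = true ↔ ∃ i < n, p i = true := by
  induction n with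
  | zero => simp [exB]
  | succ n ih =>
    have : exB (n + 1) p = (p n || exB n p) := rfl
    rw [this, Bool.or_eq_true, ih]
    constructor
    · rintro (h | ⟨i, hi, h⟩)
      · exact ⟨n, Nat.lt_succ_self n, h⟩
      · exact ⟨i, Nat.lt_succ_of_lt hi, h⟩
    · rintro ⟨i, hi, h⟩
      rcases Nat.lt_succ_iff_lt_or_eq.1 hi with h' | rfl
      · exact Or.inr ⟨i, h', h⟩
      · exact Or.inl h

/-- digit `i` of `T` in base 128 -/
def tb (T i : ℕ) : ℕ := T / 128 ^ i % 128

structure Tb where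
  v : ℕ
  x : ℕ
  f : ℕ
  n : ℕ
  O : ℕ
  Fa : ℕ
  R : ℕ
  I : ℕ
  S : ℕ
  P : ℕ

namespace Tb

variable (T : Tb)

def o (i : ℕ) : ℕ := tb T.O i
def fa (i : ℕ) : ℕ := tb T.Fa i
def r (i : ℕ) : ℕ := tb T.R i
def ri (i : ℕ) : ℕ := tb T.I i
def s (i : ℕ) : ℕ := tb T.S i
def pa (i : ℕ) : ℕ := tb T.P i
/-- crossing dart -/
def c (i : ℕ) : Bool := Nat.ble T.v (T.o i)
def nt (i : ℕ) : ℕ := T.ri (T.s i)
def fr (i : ℕ) : ℕ := bif T.c (T.s i) then T.s (T.r (T.r (T.s i))) else T.s i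

/-- basic check -/
def chk1 : Bool := allB T.n fun i =>
  Nat.ble (T.o i + 1) (T.v + T.x) && Nat.ble (T.fa i + 1) T.f && Nat.ble (T.r i + 1) T.n &&
  Nat.ble (T.ri i + 1) T.n && Nat.ble (T.s i + 1) T.n && Nat.beq (T.r (T.ri i)) i &&
  Nat.beq (T.ri (T.r i)) i && Nat.beq (T.s (T.s i)) i && !(Nat.beq (T.s i) i) &&
  Nat.beq (T.o (T.r i)) (T.o i) && Nat.beq (T.fa (T.nt i)) (T.fa i) &&
  (!(T.c i) || (Nat.beq (T.r (T.r (T.r (T.r i)))) i && !(Nat.beq (T.r (T.r i)) i) &&
    !(T.c (T.s i)) && !(Nat.beq (T.o (T.s i)) (T.o (T.s (T.r i)))))) &&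
  (Nat.beq i 0 || (Nat.ble (T.pa i + 1) i &&
    (Nat.beq (T.r (T.pa i)) i || Nat.beq (T.s (T.pa i)) i)))

/-- surjectivity check -/
def chk2 : Bool := (allB (T.v + T.x) fun p => exB T.n fun i => Nat.beq (T.o i) p) &&
  (allB T.f fun p => exB T.n fun i => Nat.beq (T.fa i) p)

/-- there is an edge from `u` to `w` -/
def ad (u w : ℕ) : Bool := exB T.n fun i => Nat.beq (T.o i) u && Nat.beq (T.o (T.fr i)) w

/-- no loops, no multiple edges -/
def chk3 : Bool := allB T.n fun i => T.c i || (!(Nat.beq (T.o (T.fr i)) (T.o i)) &&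
  allB T.n fun j => !(Nat.beq (T.o i) (T.o j)) || !(Nat.beq (T.o (T.fr i)) (T.o (T.fr j))) ||
    Nat.beq i j)

/-- maximality at a face -/
def chk4 : Bool := allB T.n fun i => T.c i || allB T.n fun j =>
  !(Nat.beq (T.fa i) (T.fa j)) || T.c j || Nat.beq (T.o i) (T.o j) || T.ad (T.o i) (T.o j)

/-- maximality across an edge -/
def chk5 : Bool := allB T.n fun k => T.c k || T.c (T.s k) || allB T.n fun i =>
  !(Nat.beq (T.fa i) (T.fa k)) || T.c i || Nat.beq (T.o i) (T.o k) ||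
    Nat.beq (T.o i) (T.o (T.s k)) || allB T.n fun j =>
  !(Nat.beq (T.fa j) (T.fa (T.s k))) || T.c j || Nat.beq (T.o j) (T.o k) ||
    Nat.beq (T.o j) (T.o (T.s k)) || Nat.beq (T.o i) (T.o j) || T.ad (T.o i) (T.o j)

/-- good side -/
def g (k : ℕ) : Bool := T.c (T.s k) || (T.c (T.s (T.nt (T.s k))) &&
  Nat.beq (T.nt (T.nt (T.nt (T.s k)))) (T.s k))

/-- lens -/
def le (a : ℕ) : Bool := !(T.c a) && !(T.c (T.s a)) && T.g a && T.g (T.s a)

structure Ok : Prop where
  h1 : T.chk1 = true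
  h2 : T.chk2 = true
  h3 : T.chk3 = true
  h4 : T.chk4 = true
  h5 : T.chk5 = true
  h6 : T.n + 4 = 2 * (T.v + T.x + T.f)
  h7 : 0 < T.n

variable {T}

theorem ble_iff {a b : ℕ} : Nat.ble a b = true ↔ a ≤ b := by rw [Nat.ble_eq]

theorem beq_iff {a b : ℕ} : Nat.beq a b = true ↔ a = b := by rw [Nat.beq_eq]

structure B1 (T : Tb) (i : ℕ) : Prop where
  o : T.o i < T.v + T.x
  fa : T.fa i < T.f
  r : T.r i < T.n
  ri : T.ri i < T.n
  s : T.s i < T.n
  rri : T.r (T.ri i) = i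
  rir : T.ri (T.r i) = i
  ss : T.s (T.s i) = i
  sne : T.s i ≠ i
  or : T.o (T.r i) = T.o i
  fn : T.fa (T.nt i) = T.fa i
  cc : T.v ≤ T.o i → T.r (T.r (T.r (T.r i))) = i ∧ T.r (T.r i) ≠ i ∧ T.o (T.s i) < T.v ∧
    T.o (T.s i) ≠ T.o (T.s (T.r i))
  pp : i ≠ 0 → T.pa i < i ∧ (T.r (T.pa i) = i ∨ T.s (T.pa i) = i)

theorem Ok.b1 (h : T.Ok) {i : ℕ} (hi : i < T.n) : B1 T i := by
  have h1 := (allB_iff _ _).1 h.h1 i hi
  simp only [Bool.and_eq_true, Bool.or_eq_true, Bool.not_eq_true', ble_iff, beq_iff] at h1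
  obtain ⟨⟨⟨⟨⟨⟨⟨⟨⟨⟨⟨⟨a1, a2⟩, a3⟩, a4⟩, a5⟩, a6⟩, a7⟩, a8⟩, a9⟩, a10⟩, a11⟩, a12⟩, a13⟩ := h1
  refine ⟨a1, a2, a3, a4, a5, a6, a7, a8, ?_, a10, a11, ?_, ?_⟩
  · intro e
    rw [← beq_iff, a9] at e
    exact Bool.false_ne_true e
  · intro hc
    rcases a12 with e | ⟨⟨⟨e1, e2⟩, e3⟩, e4⟩
    · exfalso
      unfold c at e
      rw [← ble_iff, e] at hc
      exact Bool.false_ne_true hc
    · refine ⟨e1, ?_, ?_, ?_⟩
      · intro e
        rw [← beq_iff, e2] at e
        exact Bool.false_ne_true e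
      · unfold c at e3
        by_contra hh
        rw [not_lt, ← ble_iff, e3] at hh
        exact Bool.false_ne_true hh
      · intro e
        rw [← beq_iff, e4] at e
        exact Bool.false_ne_true e
  · intro h0
    rcases a13 with e | e
    · exact absurd e h0
    · exact e

/-- the data of the drawing -/
abbrev data (h : T.Ok) : DrawData where
  V := Fin T.v
  X := Fin T.x
  F := Fin T.f
  D := Fin T.n
  org d := if h' : T.o d.1 < T.v then .inl ⟨T.o d.1, h'⟩ else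
    .inr ⟨T.o d.1 - T.v, by have := (h.b1 d.2).o; omega⟩
  fac d := ⟨T.fa d.1, (h.b1 d.2).fa⟩
  rot := ⟨fun d => ⟨T.r d.1, (h.b1 d.2).r⟩, fun d => ⟨T.ri d.1, (h.b1 d.2).ri⟩,
    fun d => Fin.ext (h.b1 d.2).rir, fun d => Fin.ext (h.b1 d.2).rri⟩
  rev := ⟨fun d => ⟨T.s d.1, (h.b1 d.2).s⟩, fun d => ⟨T.s d.1, (h.b1 d.2).s⟩,
    fun d => Fin.ext (h.b1 d.2).ss, fun d => Fin.ext (h.b1 d.2).ss⟩

theorem org_inl (h : T.Ok) {d : Fin T.n} {u : Fin T.v} :
    (data h).org d = Sum.inl u ↔ T.o d.1 = u.1 := by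
  change (if h' : T.o d.1 < T.v then Sum.inl (⟨T.o d.1, h'⟩ : Fin T.v) else
    Sum.inr (⟨T.o d.1 - T.v, _⟩ : Fin T.x)) = Sum.inl u ↔ _
  split_ifs with h'
  · simp only [Sum.inl.injEq, Fin.ext_iff]
  · constructor
    · intro e; cases e
    · intro e; have := u.2; omega

theorem org_inr (h : T.Ok) {d : Fin T.n} {u : Fin T.x} :
    (data h).org d = Sum.inr u ↔ T.o d.1 = T.v + u.1 := by
  change (if h' : T.o d.1 < T.v then Sum.inl (⟨T.o d.1, h'⟩ : Fin T.v) else
    Sum.inr (⟨T.o d.1 - T.v, _⟩ : Fin T.x)) = Sum.inr u ↔ _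
  split_ifs with h'
  · constructor
    · intro e; cases e
    · intro e; omega
  · simp only [Sum.inr.injEq, Fin.ext_iff]
    omega

theorem org_eq (h : T.Ok) {d e : Fin T.n} :
    (data h).org d = (data h).org e ↔ T.o d.1 = T.o e.1 := by
  rcases he : (data h).org e with u | u
  · rw [org_inl h, ((org_inl h).1 he)]
  · rw [org_inr h, ((org_inr h).1 he)]

theorem valid (h : T.Ok) : (data h).Valid where
  finV := inferInstanceAs (Finite (Fin T.v))
  finX := inferInstanceAs (Finite (Fin T.x))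
  finF := inferInstanceAs (Finite (Fin T.f))
  finD := inferInstanceAs (Finite (Fin T.n))
  org_surj := by
    have h2 := h.h2
    unfold chk2 at h2
    rw [Bool.and_eq_true, allB_iff, allB_iff] at h2
    rintro (u | u)
    · obtain ⟨i, hi, h'⟩ := (exB_iff _ _).1 (h2.1 u.1 (by have := u.2; omega))
      exact ⟨⟨i, hi⟩, (org_inl h).2 (beq_iff.1 h')⟩
    · obtain ⟨i, hi, h'⟩ := (exB_iff _ _).1 (h2.1 (T.v + u.1) (by have := u.2; omega))
      exact ⟨⟨i, hi⟩, (org_inr h).2 (beq_iff.1 h')⟩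
  fac_surj := by
    have h2 := h.h2
    unfold chk2 at h2
    rw [Bool.and_eq_true, allB_iff, allB_iff] at h2
    intro u
    obtain ⟨i, hi, h'⟩ := (exB_iff _ _).1 (h2.2 u.1 u.2)
    exact ⟨⟨i, hi⟩, Fin.ext (beq_iff.1 h')⟩
  org_rot d := (org_eq h).2 (h.b1 d.2).or
  fac_nxt d := Fin.ext (h.b1 d.2).fn
  rev_rev d := Fin.ext (h.b1 d.2).ss
  rev_ne d := fun e => (h.b1 d.2).sne (Fin.ext_iff.1 e)
  conn := by
    rintro s ⟨d0, hd0⟩ hs
    have hfin : Finite (data h).D := inferInstanceAs (Finite (Fin T.n))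
    have hinv : ∀ d, (data h).rot d ∈ s → d ∈ s := by
      intro d hd
      have hsc : (data h).rot.SameCycle ((data h).rot d) d :=
        (Equiv.Perm.sameCycle_apply_left).2 (SameCycle.refl _ _)
      obtain ⟨i, hi⟩ := hsc.exists_nat_pow_eq
      have key : ∀ n : ℕ, ((data h).rot ^ n) ((data h).rot d) ∈ s := by
        intro n
        induction n with
        | zero => exact hd
        | succ n ih => rw [pow_succ', Equiv.Perm.mul_apply]; exact (hs _ ih).1
      rw [← hi]; exact key i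
    have hrev : ∀ d, (data h).rev d ∈ s → d ∈ s := by
      intro d hd
      have := (hs _ hd).2
      have e : (data h).rev ((data h).rev d) = d := Fin.ext (h.b1 d.2).ss
      rwa [e] at this
    have up : ∀ k : ℕ, ∀ hk : k < T.n, (⟨0, h.h7⟩ : Fin T.n) ∈ s ↔ (⟨k, hk⟩ : Fin T.n) ∈ s := by
      intro k
      induction k using Nat.strong_induction_on with
      | _ k ih =>
        intro hk
        by_cases h0 : k = 0
        · subst h0; rfl
        · obtain ⟨p1, p2⟩ := (h.b1 hk).pp h0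
          have hp : T.pa k < T.n := lt_trans p1 hk
          rw [ih _ p1 hp]
          rcases p2 with p2 | p2
          · have e : (data h).rot (⟨T.pa k, hp⟩ : Fin T.n) = (⟨k, hk⟩ : Fin T.n) := Fin.ext p2
            constructor
            · intro hh
              rw [← e]; exact (hs _ hh).1
            · intro hh
              rw [← e] at hh; exact hinv _ hh
          · have e : (data h).rev (⟨T.pa k, hp⟩ : Fin T.n) = (⟨k, hk⟩ : Fin T.n) := Fin.ext p2
            constructor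
            · intro hh
              rw [← e]; exact (hs _ hh).2
            · intro hh
              rw [← e] at hh; exact hrev _ hh
    rw [Set.eq_univ_iff_forall]
    intro d
    exact (up d.1 d.2).1 ((up d0.1 d0.2).2 hd0)
  euler := by
    change Nat.card (Fin T.n) + 4 ≤ 2 * (Nat.card (Fin T.v) + Nat.card (Fin T.x) +
      Nat.card (Fin T.f))
    simp only [Nat.card_eq_fintype_card, Fintype.card_fin]
    exact h.h6.le
  cross_four d x hx := by
    rw [org_inr h] at hx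
    exact Fin.ext ((h.b1 d.2).cc (by omega)).1
  cross_two d x hx := by
    rw [org_inr h] at hx
    exact fun e => ((h.b1 d.2).cc (by omega)).2.1 (Fin.ext_iff.1 e)
  cross_rev d x hx := by
    rw [org_inr h] at hx
    exact ⟨⟨T.o (T.s d.1), ((h.b1 d.2).cc (by omega)).2.2.1⟩, (org_inl h).2 rfl⟩

variable (H : ExactStmt) (h : T.Ok)

/-- the drawing -/
abbrev dr : Drawing where
  V := Fin T.v
  X := Fin T.x
  F := Fin T.f
  D := Fin T.n
  finV := (valid h).finV
  finX := (valid h).finX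
  finF := (valid h).finF
  finD := (valid h).finD
  org := (data h).org
  fac := (data h).fac
  rot := (data h).rot
  rev := (data h).rev
  org_surj := (valid h).org_surj
  fac_surj := (valid h).fac_surj
  org_iff := (H _ (valid h)).org_iff
  fac_iff := (H _ (valid h)).fac_iff
  rev_rev := (valid h).rev_rev
  rev_ne := (valid h).rev_ne
  conn := (valid h).conn
  euler := (H _ (valid h)).euler'
  cross_four := (valid h).cross_four
  cross_two := (valid h).cross_two
  cross_rev := (valid h).cross_rev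

theorem cr_iff {d : Fin T.n} : (dr H h).cr d ↔ T.c d.1 = true := by
  have e : (dr H h).cr d ↔ ∃ x : Fin T.x, (data h).org d = Sum.inr x := Iff.rfl
  rw [e]
  unfold c
  rw [ble_iff]
  constructor
  · rintro ⟨x, hx⟩
    rw [org_inr h] at hx
    omega
  · intro hh
    have := (h.b1 d.2).o
    refine ⟨⟨T.o d.1 - T.v, by omega⟩, (org_inr h).2 ?_⟩
    simp only
    omega

theorem not_cr_iff' {d : Fin T.n} : ¬ (dr H h).cr d ↔ T.c d.1 = false := by
  rw [cr_iff H h, Bool.not_eq_true]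

theorem far_val (d : Fin T.n) :
    ((dr H h).far d : Fin T.n).1 = T.fr d.1 := by
  have e : (dr H h).rev d = (⟨T.s d.1, (h.b1 d.2).s⟩ : Fin T.n) := rfl
  unfold fr
  by_cases hc : (dr H h).cr ((dr H h).rev d)
  · rw [far_of_cr hc]
    rw [cr_iff H h] at hc
    have hc' : T.c (T.s d.1) = true := hc
    rw [hc', cond_true]
    rfl
  · rw [far_of_not hc]
    rw [not_cr_iff' H h] at hc
    have hc' : T.c (T.s d.1) = false := hc
    rw [hc', cond_false]
    rfl

theorem nxt_val (d : Fin T.n) : ((dr H h).nxt d : Fin T.n).1 = T.nt d.1 := rfl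

theorem gs_iff {k : Fin T.n} (hk : T.c k.1 = false) :
    gs (M := dr H h) k ↔ T.g k.1 = true := by
  unfold gs g
  rw [Bool.or_eq_true, Bool.and_eq_true, cr_iff H h, cr_iff H h, Bool.not_eq_true, beq_iff]
  have e1 : (((dr H h).rev k : Fin T.n) : ℕ) = T.s k.1 := rfl
  have e2 : (((dr H h).rev ((dr H h).nxt ((dr H h).rev k)) : Fin T.n) : ℕ) =
    T.s (T.nt (T.s k.1)) := rfl
  have e3 : (dr H h).nxt ((dr H h).nxt ((dr H h).nxt ((dr H h).rev k))) = (dr H h).rev k ↔
      T.nt (T.nt (T.nt (T.s k.1))) = T.s k.1 :=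
    ⟨fun e => congrArg (fun z : Fin T.n => z.1) e, fun e => Fin.ext e⟩
  rw [e3]
  change T.c (T.s k.1) = true ∨ (T.c (T.s k.1) = false ∧ T.c (T.s (T.nt (T.s k.1))) = true ∧ _) ↔ _
  cases T.c (T.s k.1) <;> simp

theorem c_false_of {i u : ℕ} (h : T.o i = u) (hu : u < T.v) : T.c i = false := by
  unfold c
  rw [← Bool.not_eq_true, ble_iff]
  omega

theorem isSimple : (dr H h).IsSimple where
  no_loop d u hd hf := by
    have hd' := (org_inl h (d := d)).1 hd
    have hf' := (org_inl h (d := (dr H h).far d)).1 hf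
    rw [far_val H h] at hf'
    have h3 := (allB_iff _ _).1 h.h3 _ (Fin.isLt d)
    rw [c_false_of hd' u.2, Bool.false_or, Bool.and_eq_true, Bool.not_eq_true'] at h3
    have : Nat.beq (T.o (T.fr d.1)) (T.o d.1) = true := beq_iff.2 (hf'.trans hd'.symm)
    rw [h3.1] at this
    exact Bool.false_ne_true this
  no_multi d e u v hd he hfd hfe := by
    have hd' := (org_inl h (d := d)).1 hd
    have he' := (org_inl h (d := e)).1 he
    have hfd' := (org_inl h (d := (dr H h).far d)).1 hfd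
    have hfe' := (org_inl h (d := (dr H h).far e)).1 hfe
    rw [far_val H h] at hfd' hfe'
    have h3 := (allB_iff _ _).1 h.h3 _ (Fin.isLt d)
    rw [c_false_of hd' u.2, Bool.false_or, Bool.and_eq_true, Bool.not_eq_true', allB_iff] at h3
    have h4 := h3.2 _ (Fin.isLt e)
    simp only [Bool.or_eq_true, Bool.not_eq_true'] at h4
    have q1 : Nat.beq (T.o d.1) (T.o e.1) = true := beq_iff.2 (hd'.trans he'.symm)
    have q2 : Nat.beq (T.o (T.fr d.1)) (T.o (T.fr e.1)) = true := beq_iff.2 (hfd'.trans hfe'.symm)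
    rw [q1, q2] at h4
    rcases h4 with (h4 | h4) | h4
    · exact absurd h4 (by simp)
    · exact absurd h4 (by simp)
    · exact Fin.ext (beq_iff.1 h4)
  cross_ends d hd hne := by
    rw [cr_iff H h] at hd
    unfold c at hd
    rw [ble_iff] at hd
    exact ((h.b1 (Fin.isLt d)).cc hd).2.2.2 ((org_eq h).1 hne)

theorem adj_of {u v : Fin T.v} (hh : T.ad u.1 v.1 = true) : (dr H h).graph.Adj u v := by
  rw [graph_adj_iff (isSimple H h)]
  obtain ⟨i, hi, h'⟩ := (exB_iff _ _).1 hh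
  rw [Bool.and_eq_true, beq_iff, beq_iff] at h'
  refine ⟨(⟨i, hi⟩ : Fin T.n), ?_, (org_inl h).2 h'.1, ?_⟩
  · rw [not_cr_iff' H h]
    exact c_false_of h'.1 u.2
  · refine (org_inl h (d := (dr H h).far (⟨i, hi⟩ : Fin T.n))).2 ?_
    rw [far_val H h]; exact h'.2

theorem isMaximal : (dr H h).IsMaximal where
  face d e u v hd he hf hne := by
    have hd' := (org_inl h (d := d)).1 hd
    have he' := (org_inl h (d := e)).1 he
    have hf' : T.fa d.1 = T.fa e.1 := congrArg (fun z : Fin T.f => z.1) hf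
    have h4 := (allB_iff _ _).1 h.h4 _ (Fin.isLt d)
    rw [c_false_of hd' u.2, Bool.false_or, allB_iff] at h4
    have h5 := h4 _ (Fin.isLt e)
    rw [c_false_of he' v.2, beq_iff.2 hf', Bool.not_true, Bool.false_or, Bool.false_or,
      Bool.or_eq_true, beq_iff, hd', he'] at h5
    rcases h5 with h5 | h5
    · exact absurd (Fin.ext h5) hne
    · exact adj_of H h h5
  across k d e u v hk hk' hd he hfd hfe n1 n2 n3 n4 hne := by
    have hd' := (org_inl h (d := d)).1 hd
    have he' := (org_inl h (d := e)).1 he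
    have hfd' : T.fa d.1 = T.fa k.1 := congrArg (fun z : Fin T.f => z.1) hfd
    have hfe' : T.fa e.1 = T.fa (T.s k.1) := congrArg (fun z : Fin T.f => z.1) hfe
    rw [not_cr_iff' H h] at hk hk'
    have hk'' : T.c (T.s k.1) = false := hk'
    have h4 := (allB_iff _ _).1 h.h5 _ (Fin.isLt k)
    rw [hk, hk'', Bool.false_or, Bool.false_or, allB_iff] at h4
    have h5 := h4 _ (Fin.isLt d)
    have n1' : Nat.beq (T.o d.1) (T.o k.1) = false := by
      rw [← Bool.not_eq_true, beq_iff, ← org_eq h]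
      intro e'; exact n1 (e'.symm.trans hd)
    have n2' : Nat.beq (T.o d.1) (T.o (T.s k.1)) = false := by
      rw [← Bool.not_eq_true, beq_iff]
      intro e'; exact n2 (((org_eq h (d := d) (e := (dr H h).rev k)).2 e').symm.trans hd)
    have n3' : Nat.beq (T.o e.1) (T.o k.1) = false := by
      rw [← Bool.not_eq_true, beq_iff, ← org_eq h]
      intro e'; exact n3 (e'.symm.trans he)
    have n4' : Nat.beq (T.o e.1) (T.o (T.s k.1)) = false := by
      rw [← Bool.not_eq_true, beq_iff]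
      intro e'; exact n4 (((org_eq h (d := e) (e := (dr H h).rev k)).2 e').symm.trans he)
    rw [beq_iff.2 hfd', c_false_of hd' u.2, n1', n2', Bool.not_true, Bool.false_or, Bool.false_or,
      Bool.false_or, Bool.false_or, allB_iff] at h5
    have h6 := h5 _ (Fin.isLt e)
    rw [beq_iff.2 hfe', c_false_of he' v.2, n3', n4', Bool.not_true, Bool.false_or, Bool.false_or,
      Bool.false_or, Bool.false_or, Bool.or_eq_true, beq_iff, hd', he'] at h6
    rcases h6 with h6 | h6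
    · exact absurd (Fin.ext h6) hne
    · exact adj_of H h h6

theorem good (H2 : TwoConnStmt) (hv : 2 < T.v) : (dr H h).Good where
  simple := isSimple H h
  maximal := isMaximal H h
  conn2 := by
    refine H2 _ (isSimple H h) (isMaximal H h) ?_
    change 2 < Nat.card (Fin T.v)
    simpa using hv

/-- check of a slot with the witnesses `a b e` -/
def slot (T : Tb) (p : ℕ × ℕ × ℕ × ℕ) : Bool :=
  Nat.ble (p.2.1 + 1) T.n && Nat.ble (p.2.2.1 + 1) T.n && Nat.ble (p.2.2.2 + 1) T.n &&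
  !(T.c p.2.1) && !(T.c p.2.2.1) && !(T.c p.2.2.2) &&
  Nat.beq (T.fa p.2.1) p.1 && Nat.beq (T.fa p.2.2.1) p.1 && Nat.beq (T.fa p.2.2.2) p.1 &&
  !(Nat.beq (T.o p.2.1) (T.o p.2.2.1)) && !(Nat.beq (T.o p.2.1) (T.o p.2.2.2)) &&
  !(Nat.beq (T.o p.2.2.1) (T.o p.2.2.2)) &&
  allB T.n fun k => !(Nat.beq (T.fa k) p.1) || T.c k || T.c (T.s k) || T.g k

theorem slot_ok {p : ℕ × ℕ × ℕ × ℕ} (hp : slot T p = true) {f : Fin T.f} (hf : f.1 = p.1) :
    (dr H h).PlainSlot f := by
  unfold slot at hp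
  simp only [Bool.and_eq_true, Bool.not_eq_true', ble_iff, beq_iff, allB_iff] at hp
  obtain ⟨⟨⟨⟨⟨⟨⟨⟨⟨⟨⟨⟨a1, a2⟩, a3⟩, a4⟩, a5⟩, a6⟩, a7⟩, a8⟩, a9⟩, a10⟩, a11⟩, a12⟩, a13⟩ := hp
  have ne : ∀ {i j : ℕ} (hi : i < T.n) (hj : j < T.n), Nat.beq (T.o i) (T.o j) = false →
      (data h).org (⟨i, hi⟩ : Fin T.n) ≠ (data h).org (⟨j, hj⟩ : Fin T.n) := by
    intro i j hi hj hh e
    have e' := (org_eq h).1 e
    rw [← beq_iff, hh] at e'
    exact Bool.false_ne_true e'
  refine ⟨⟨(⟨p.2.1, a1⟩ : Fin T.n), (⟨p.2.2.1, a2⟩ : Fin T.n), (⟨p.2.2.2, a3⟩ : Fin T.n),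
    (not_cr_iff' H h).2 a4, (not_cr_iff' H h).2 a5, (not_cr_iff' H h).2 a6,
    Fin.ext (a7.trans hf.symm), Fin.ext (a8.trans hf.symm), Fin.ext (a9.trans hf.symm),
    ne _ _ a10, ne _ _ a11, ne _ _ a12⟩, ?_⟩
  intro k hk hk1 hk2
  rw [not_cr_iff' H h] at hk1 hk2
  have hk2' : T.c (T.s k.1) = false := hk2
  have hkf : T.fa k.1 = p.1 := (congrArg (fun z : Fin T.f => z.1) hk).trans hf
  have := a13 _ (Fin.isLt k)
  rw [beq_iff.2 hkf, hk1, hk2', Bool.not_true, Bool.false_or, Bool.false_or, Bool.false_or] at this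
  exact (gs_iff H h hk1).2 this

theorem lens_ok {a : Fin T.n} (ha : T.le a.1 = true) : (dr H h).LensD a := by
  unfold le at ha
  simp only [Bool.and_eq_true, Bool.not_eq_true'] at ha
  obtain ⟨⟨⟨b1, b2⟩, b3⟩, b4⟩ := ha
  exact ⟨(not_cr_iff' H h).2 b1, (not_cr_iff' H h).2 b2, (gs_iff H h b1).2 b3,
    (gs_iff H h (k := (dr H h).rev a) b2).2 b4⟩

include H h in
theorem hasBase (H2 : TwoConnStmt) (hv : 2 < T.v) {x v l t : ℕ} (hx : T.x = x) (hv' : T.v = v)
    (A : Finset (Fin T.n)) (B : Finset (Fin T.f)) (hA : A.card = l) (hB : B.card = t)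
    (hA' : ∀ a ∈ A, T.le a.1 = true ∧ ∀ b ∈ A, T.s a.1 ≠ b.1)
    (hB' : ∀ f ∈ B, ∃ p : ℕ × ℕ × ℕ × ℕ, slot T p = true ∧ f.1 = p.1) :
    HasBase x v l t := by
  refine ⟨dr H h, good H h H2 hv, ?_, ?_, (A : Set (Fin T.n)), (B : Set (Fin T.f)), ?_, ?_, ?_, ?_⟩
  · change Nat.card (Fin T.x) = x
    simpa using hx
  · change Nat.card (Fin T.v) = v
    simpa using hv'
  · intro a ha
    have := hA' a ha
    exact ⟨lens_ok H h this.1, fun hr => this.2 _ hr rfl⟩
  · intro f hf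
    obtain ⟨p, hp, hp'⟩ := hB' f hf
    exact slot_ok H h hp hp'
  · simpa using hA
  · simpa using hB

end Tb

end TabD

end Pool.Agent.H74.OneP
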